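import Pool.Agent.H50.FOT.CVX

/-! Board `fot`, row CST: lower bound for the cost. -/

open MeasureTheory unitInterval Set Filter Topology

namespace Pool.FOT

open Pool.Agent.H99.LowerTail

namespace CST50

lemma integrable_bdd {X : Type} [MeasurableSpace X] (μ : Measure X) [IsFiniteMeasure μ]
    {g : X → ℝ} (hg : Measurable g) (C : ℝ) (hC : ∀ x, |g x| ≤ C) : Integrable g μ :=
  Integrable.of_bound hg.aestronglyMeasurable C (Eventually.of_forall fun x => by
    rw [Real.norm_eq_abs]; exact hC x)

end CST50

open CST50 in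
/-- Row CST. -/
theorem t_cst (h1 : CVXStmt) : CSTStmt := by
  intro p q M W hq B hB hq0 hqp hp1 hM
  have hp0 : 0 < p := hq0.trans_le hqp
  have hq1 : q < 1 := hqp.trans_lt hp1
  set R := relEnt p q with hR
  have hR0 : 0 ≤ R := relEnt_nonneg hp0 hp1 hq.1 hq.2
  have hM0 : 0 ≤ M := hR0.trans (hM q hq)
  set L := Ld p q with hL
  set W' := repl W q hq B hB with hW'
  set χ : I → ℝ := B.indicator (fun _ => (1 : ℝ)) with hχ
  have hχm : Measurable χ := measurable_const.indicator hB
  have hχ01 : ∀ x, χ x = 0 ∨ χ x = 1 := by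
    intro x
    by_cases hx : x ∈ B
    · exact Or.inr (indicator_of_mem hx _)
    · exact Or.inl (indicator_of_notMem hx _)
  have hχabs : ∀ x, |χ x| ≤ 1 := by
    intro x
    rcases hχ01 x with h | h <;> rw [h] <;> norm_num
  set g : I × I → ℝ := fun z => relEnt p (W z.1 z.2) with hg
  have hgc := continuous_relEnt hp0 hp1
  have hgm : Measurable g := hgc.measurable.comp W.measurable'
  have hg0 : ∀ z, 0 ≤ g z := fun z => relEnt_nonneg hp0 hp1 (W.nonneg' _ _) (W.le_one' _ _)
  have hgM : ∀ z, g z ≤ M := fun z => hM _ ⟨W.nonneg' _ _, W.le_one' _ _⟩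
  have hgabs : ∀ z, |g z| ≤ M := fun z => by rw [abs_of_nonneg (hg0 z)]; exact hgM z
  have hW'm : Measurable fun z : I × I => W' z.1 z.2 := W'.measurable'
  have hW'abs : ∀ z : I × I, |W' z.1 z.2 - q| ≤ 1 := by
    intro z
    rw [abs_le]
    constructor
    · linarith [W'.nonneg' z.1 z.2, hq.2]
    · linarith [W'.le_one' z.1 z.2, hq.1]
  -- the pointwise inequality
  have hpt : ∀ z : I × I, R - L * (W' z.1 z.2 - q) + 2 * (W' z.1 z.2 - q) ^ 2
      + χ z.1 * (g z - R) + χ z.2 * (g z - R) - 2 * M * (χ z.1 * χ z.2) ≤ g z := by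
    intro z
    by_cases hx : z.1 ∈ B <;> by_cases hy : z.2 ∈ B
    · have e1 : χ z.1 = 1 := indicator_of_mem hx _
      have e2 : χ z.2 = 1 := indicator_of_mem hy _
      have e3 : W' z.1 z.2 = q := if_pos (Or.inl hx)
      rw [e1, e2, e3]
      have := hgM z
      nlinarith
    · have e1 : χ z.1 = 1 := indicator_of_mem hx _
      have e2 : χ z.2 = 0 := indicator_of_notMem hy _
      have e3 : W' z.1 z.2 = q := if_pos (Or.inl hx)
      rw [e1, e2, e3]
      nlinarith
    · have e1 : χ z.1 = 0 := indicator_of_notMem hx _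
      have e2 : χ z.2 = 1 := indicator_of_mem hy _
      have e3 : W' z.1 z.2 = q := if_pos (Or.inr hy)
      rw [e1, e2, e3]
      nlinarith
    · have e1 : χ z.1 = 0 := indicator_of_notMem hx _
      have e2 : χ z.2 = 0 := indicator_of_notMem hy _
      have e3 : W' z.1 z.2 = W z.1 z.2 := if_neg (by
        rintro (h | h)
        · exact hx h
        · exact hy h)
      rw [e1, e2, e3]
      have := h1 p q (W z.1 z.2) hp0 hp1 hq0 hq1 (W.nonneg' _ _) (W.le_one' _ _)
      simp only [hg]
      linarith
  -- integrability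
  have j1 : Integrable (fun z : I × I => W' z.1 z.2 - q) :=
    integrable_bdd _ (hW'm.sub measurable_const) 1 hW'abs
  have j2 : Integrable (fun z : I × I => (W' z.1 z.2 - q) ^ 2) := by
    refine integrable_bdd _ ((hW'm.sub measurable_const).pow_const 2) 1 fun z => ?_
    rw [abs_pow]
    exact pow_le_one₀ (abs_nonneg _) (hW'abs z)
  have hgR : ∀ z, |g z - R| ≤ M := by
    intro z
    rw [abs_le]
    constructor
    · linarith [hg0 z, hM q hq]
    · linarith [hgM z]
  have j3 : Integrable (fun z : I × I => χ z.1 * (g z - R)) := by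
    refine integrable_bdd _ ((hχm.comp measurable_fst).mul (hgm.sub measurable_const)) M
      fun z => ?_
    rw [abs_mul]
    calc |χ z.1| * |g z - R| ≤ 1 * M := mul_le_mul (hχabs _) (hgR z) (abs_nonneg _) zero_le_one
      _ = M := one_mul M
  have j4 : Integrable (fun z : I × I => χ z.2 * (g z - R)) := by
    refine integrable_bdd _ ((hχm.comp measurable_snd).mul (hgm.sub measurable_const)) M
      fun z => ?_
    rw [abs_mul]
    calc |χ z.2| * |g z - R| ≤ 1 * M := mul_le_mul (hχabs _) (hgR z) (abs_nonneg _) zero_le_one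
      _ = M := one_mul M
  have j5 : Integrable (fun z : I × I => χ z.1 * χ z.2) := by
    refine integrable_bdd _ ((hχm.comp measurable_fst).mul (hχm.comp measurable_snd)) 1
      fun z => ?_
    rw [abs_mul]
    exact mul_le_one₀ (hχabs _) (abs_nonneg _) (hχabs _)
  have j6 : Integrable g := integrable_bdd _ hgm M hgabs
  -- the parts
  have hχint : ∫ x, χ x = volume.real B := by
    rw [hχ, integral_indicator hB]
    simp
  have p5 : ∫ z : I × I, χ z.1 * χ z.2 = volume.real B ^ 2 := by
    have := integral_prod_mul (μ := (volume : Measure I)) (ν := (volume : Measure I)) χ χ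
    rw [hχint] at this
    rw [sq, ← this]
    rfl
  have p3 : ∫ t in B, (relEnt p (rowAv W t) - R) ≤ ∫ z : I × I, χ z.1 * (g z - R) := by
    have e1 : ∫ z : I × I, χ z.1 * (g z - R) = ∫ x, ∫ y, χ x * (g (x, y) - R) :=
      integral_prod _ j3
    rw [e1]
    have e2 : ∫ t in B, (relEnt p (rowAv W t) - R)
        = ∫ x, χ x * (relEnt p (rowAv W x) - R) := by
      rw [← integral_indicator hB]
      refine integral_congr_ae (Eventually.of_forall fun x => ?_)
      by_cases hx : x ∈ B
      · simp only [hχ, indicator_of_mem hx, one_mul]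
      · simp only [hχ, indicator_of_notMem hx, zero_mul]
    rw [e2]
    have hrow01 : ∀ x, rowAv W x ∈ Icc (0 : ℝ) 1 := by
      intro x
      have hm : Measurable fun y => W x y := W.measurable'.comp measurable_prodMk_left
      have hi : Integrable fun y => W x y := integrable_bdd _ hm 1 fun y => by
        rw [abs_of_nonneg (W.nonneg' _ _)]
        exact W.le_one' _ _
      refine ⟨integral_nonneg fun y => W.nonneg' _ _, ?_⟩
      calc ∫ y, W x y ≤ ∫ _ : I, (1 : ℝ) :=
            integral_mono hi (integrable_const _) fun y => W.le_one' _ _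
        _ = 1 := by simp
    have hrowm : Measurable fun x => rowAv W x := by
      have : StronglyMeasurable fun x => ∫ y, W x y :=
        W.measurable'.stronglyMeasurable.integral_prod_right'
      exact this.measurable
    refine integral_mono ?_ j3.integral_prod_left fun x => ?_
    · refine integrable_bdd _ (hχm.mul ((hgc.measurable.comp hrowm).sub measurable_const)) M
        fun x => ?_
      rw [abs_mul]
      have h2 : |relEnt p (rowAv W x) - R| ≤ M := by
        have a1 := relEnt_nonneg hp0 hp1 (hrow01 x).1 (hrow01 x).2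
        have a2 := hM _ (hrow01 x)
        rw [abs_le]
        constructor
        · linarith [hM q hq]
        · linarith
      calc |χ x| * |relEnt p (rowAv W x) - R| ≤ 1 * M :=
            mul_le_mul (hχabs _) h2 (abs_nonneg _) zero_le_one
        _ = M := one_mul M
    · simp only
      rw [integral_const_mul]
      have hχ0 : 0 ≤ χ x := by rcases hχ01 x with h | h <;> rw [h] <;> norm_num
      refine mul_le_mul_of_nonneg_left ?_ hχ0
      have hm : Measurable fun y => W x y := W.measurable'.comp measurable_prodMk_left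
      have hi : Integrable fun y => W x y := integrable_bdd _ hm 1 fun y => by
        rw [abs_of_nonneg (W.nonneg' _ _)]
        exact W.le_one' _ _
      have hgi : Integrable fun y => g (x, y) :=
        integrable_bdd _ (hgm.comp measurable_prodMk_left) M fun y => hgabs _
      rw [integral_sub hgi (integrable_const _)]
      have hj : relEnt p (∫ y, W x y) ≤ ∫ y, relEnt p (W x y) :=
        (CVX50.convexOn_relEnt hp0 hp1).map_integral_le hgc.continuousOn isClosed_Icc
          (Eventually.of_forall fun y => ⟨W.nonneg' _ _, W.le_one' _ _⟩) hi hgi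
      have e3 : ∫ _ : I, R = R := by simp
      rw [e3]
      simp only [hg, rowAv]
      linarith
  have p4 : ∫ z : I × I, χ z.2 * (g z - R) = ∫ z : I × I, χ z.1 * (g z - R) := by
    have hsw : MeasurePreserving (Prod.swap : I × I → I × I) :=
      Measure.measurePreserving_swap
    have := hsw.integral_comp (MeasurableEquiv.prodComm.measurableEmbedding)
      (fun z : I × I => χ z.1 * (g z - R))
    rw [← this]
    refine integral_congr_ae (Eventually.of_forall fun z => ?_)
    simp only [hg, Prod.fst_swap, Prod.snd_swap]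
    rw [W.symm' z.2 z.1]
  -- assembly
  have hI : ∫ z : I × I, (R - L * (W' z.1 z.2 - q) + 2 * (W' z.1 z.2 - q) ^ 2
      + χ z.1 * (g z - R) + χ z.2 * (g z - R) - 2 * M * (χ z.1 * χ z.2)) ≤ ∫ z, g z := by
    have k1 : Integrable fun z : I × I => R - L * (W' z.1 z.2 - q) :=
      (integrable_const R).sub (j1.const_mul L)
    have k2 := k1.add (j2.const_mul 2)
    have k3 := k2.add j3
    have k4 := k3.add j4
    have k5 := k4.sub (j5.const_mul (2 * M))
    exact integral_mono k5 j6 hpt
  have hI2 : ∫ z : I × I, (R - L * (W' z.1 z.2 - q) + 2 * (W' z.1 z.2 - q) ^ 2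
      + χ z.1 * (g z - R) + χ z.2 * (g z - R) - 2 * M * (χ z.1 * χ z.2))
      = R - L * (∫ z : I × I, (W' z.1 z.2 - q)) + 2 * (∫ z : I × I, (W' z.1 z.2 - q) ^ 2)
        + (∫ z : I × I, χ z.1 * (g z - R)) + (∫ z : I × I, χ z.2 * (g z - R))
        - 2 * M * (∫ z : I × I, χ z.1 * χ z.2) := by
    have k1 : Integrable fun z : I × I => R - L * (W' z.1 z.2 - q) :=
      (integrable_const R).sub (j1.const_mul L)
    have k2 : Integrable fun z : I × I => R - L * (W' z.1 z.2 - q)
        + 2 * (W' z.1 z.2 - q) ^ 2 := k1.add (j2.const_mul 2)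
    have k3 : Integrable fun z : I × I => R - L * (W' z.1 z.2 - q)
        + 2 * (W' z.1 z.2 - q) ^ 2 + χ z.1 * (g z - R) := k2.add j3
    have k4 : Integrable fun z : I × I => R - L * (W' z.1 z.2 - q)
        + 2 * (W' z.1 z.2 - q) ^ 2 + χ z.1 * (g z - R) + χ z.2 * (g z - R) := k3.add j4
    rw [integral_sub k4 (j5.const_mul (2 * M)), integral_add k3 j4, integral_add k2 j3,
      integral_add k1 (j2.const_mul 2), integral_sub (integrable_const R) (j1.const_mul L),
      integral_const_mul, integral_const_mul, integral_const_mul]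
    simp
  rw [hI2, p4, p5] at hI
  unfold cost nsq
  linarith

end Pool.FOT
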