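import Pool.Agent.H22.FOT.Defs

/-! Board `fot`, row CVX: two point Pinsker inequality and uniform convexity of `relEnt p`. -/

open MeasureTheory unitInterval Set Filter Topology

namespace Pool.FOT

open Pool.Agent.H99.LowerTail

namespace CVX50

/-- `log s - log (1 - s) - 4 s` is monotone on `(0, 1)`. -/
lemma mono_phi : MonotoneOn (fun s : ℝ => Real.log s - Real.log (1 - s) - 4 * s) (Ioo 0 1) := by
  have hd : ∀ s ∈ Ioo (0 : ℝ) 1, HasDerivAt (fun s : ℝ => Real.log s - Real.log (1 - s) - 4 * s)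
      (s⁻¹ + (1 - s)⁻¹ - 4) s := by
    intro s hs
    have h0 : HasDerivAt (fun x : ℝ => 1 - x) (-1) s := by
      simpa using (hasDerivAt_id s).const_sub 1
    have h1 := Real.hasDerivAt_log hs.1.ne'
    have h2 : HasDerivAt (fun x : ℝ => Real.log (1 - x)) ((1 - s)⁻¹ * (-1)) s :=
      (Real.hasDerivAt_log (by linarith [hs.2] : (1 - s) ≠ 0)).comp s h0
    have h3 : HasDerivAt (fun x : ℝ => 4 * x) (4 * 1) s := (hasDerivAt_id s).const_mul 4
    refine ((h1.sub h2).sub h3).congr_deriv ?_
    ring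
  refine monotoneOn_of_deriv_nonneg (convex_Ioo 0 1) ?_ ?_ ?_
  · intro s hs
    exact (hd s hs).continuousAt.continuousWithinAt
  · intro s hs
    rw [interior_Ioo] at hs
    exact (hd s hs).differentiableAt.differentiableWithinAt
  · intro s hs
    rw [interior_Ioo] at hs
    rw [(hd s hs).deriv]
    have h1 : 0 < s := hs.1
    have h2 : 0 < 1 - s := by linarith [hs.2]
    have e : s⁻¹ + (1 - s)⁻¹ - 4 = (1 - 2 * s) ^ 2 / (s * (1 - s)) := by
      field_simp
      ring
    rw [e]
    positivity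

lemma lfun_eq {q s : ℝ} (hq0 : 0 < q) (hq1 : q < 1) (hs0 : 0 < s) (hs1 : s < 1) :
    lfun q s = (Real.log q - Real.log (1 - q)) - (Real.log s - Real.log (1 - s)) := by
  unfold lfun
  rw [Real.log_div (by linarith) (by linarith), Real.log_div hs0.ne' hq0.ne']
  ring

/-- Pinsker's inequality for two points. -/
lemma pinsker {q s : ℝ} (hq0 : 0 < q) (hq1 : q < 1) (hs0 : 0 ≤ s) (hs1 : s ≤ 1) :
    2 * (s - q) ^ 2 ≤ relEnt q s := by
  set g : ℝ → ℝ := fun s => relEnt q s - 2 * (s - q) ^ 2 with hg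
  have hcont : Continuous g := by
    have h1 := continuous_relEnt hq0 hq1
    fun_prop
  have hgq : g q = 0 := by simp [hg, relEnt_self hq0 hq1]
  have hd : ∀ x, 0 < x → x < 1 → HasDerivAt g (-lfun q x - 4 * (x - q)) x := by
    intro x hx0 hx1
    have h1 := hasDerivAt_relEnt hq0 hq1 hx0 hx1
    have h2 : HasDerivAt (fun y : ℝ => 2 * (y - q) ^ 2) (2 * (2 * (x - q) ^ (2 - 1) * 1)) x := by
      have := (((hasDerivAt_id x).sub_const q).pow 2).const_mul 2
      simpa using this
    refine (h1.sub h2).congr_deriv ?_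
    simp only [Nat.reduceSub, pow_one]
    ring
  have hsign : ∀ x y : ℝ, 0 < x → x ≤ y → y < 1 →
      Real.log x - Real.log (1 - x) - 4 * x ≤ Real.log y - Real.log (1 - y) - 4 * y := by
    intro x y hx hxy hy
    exact mono_phi ⟨hx, hxy.trans_lt hy⟩ ⟨hx.trans_le hxy, hy⟩ hxy
  have hanti : AntitoneOn g (Icc 0 q) := by
    refine antitoneOn_of_deriv_nonpos (convex_Icc 0 q) hcont.continuousOn ?_ ?_
    · intro x hx
      rw [interior_Icc] at hx
      exact (hd x hx.1 (hx.2.trans hq1)).differentiableAt.differentiableWithinAt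
    · intro x hx
      rw [interior_Icc] at hx
      rw [(hd x hx.1 (hx.2.trans hq1)).deriv, lfun_eq hq0 hq1 hx.1 (hx.2.trans hq1)]
      have := hsign x q hx.1 hx.2.le hq1
      linarith
  have hmono : MonotoneOn g (Icc q 1) := by
    refine monotoneOn_of_deriv_nonneg (convex_Icc q 1) hcont.continuousOn ?_ ?_
    · intro x hx
      rw [interior_Icc] at hx
      exact (hd x (hq0.trans hx.1) hx.2).differentiableAt.differentiableWithinAt
    · intro x hx
      rw [interior_Icc] at hx
      rw [(hd x (hq0.trans hx.1) hx.2).deriv, lfun_eq hq0 hq1 (hq0.trans hx.1) hx.2]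
      have := hsign q x hq0 hx.1.le hx.2
      linarith
  have h : 0 ≤ g s := by
    rcases le_total s q with h | h
    · have := hanti ⟨hs0, h⟩ ⟨hq0.le, le_rfl⟩ h
      rwa [hgq] at this
    · have := hmono ⟨le_rfl, hq1.le⟩ ⟨h, hs1⟩ h
      rwa [hgq] at this
  simp only [hg] at h
  linarith

/-- The three point identity. -/
lemma three {p q s : ℝ} (hp0 : 0 < p) (hp1 : p < 1) (hq0 : 0 < q) (hq1 : q < 1) :
    relEnt p s = relEnt p q - Ld p q * (s - q) + relEnt q s := by
  rw [relEnt_eq hp0 hp1, relEnt_eq hp0 hp1, relEnt_eq hq0 hq1]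
  unfold Ld
  rw [Real.log_div (mul_pos hp0 (by linarith)).ne' (mul_pos hq0 (by linarith)).ne',
    Real.log_mul hp0.ne' (by linarith), Real.log_mul hq0.ne' (by linarith)]
  ring

/-- `relEnt p` is convex on `[0, 1]`. -/
lemma convexOn_relEnt {p : ℝ} (hp0 : 0 < p) (hp1 : p < 1) :
    ConvexOn ℝ (Icc (0 : ℝ) 1) (relEnt p) := by
  have hx := Real.convexOn_mul_log
  refine ⟨convex_Icc 0 1, ?_⟩
  intro x hx' y hy' a b ha hb hab
  have h1 := hx.2 (mem_Ici.2 hx'.1) (mem_Ici.2 hy'.1) ha hb hab
  have h2 := hx.2 (x := 1 - x) (y := 1 - y) (mem_Ici.2 (by linarith [hx'.2]))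
    (mem_Ici.2 (by linarith [hy'.2])) ha hb hab
  simp only [smul_eq_mul] at h1 h2 ⊢
  have e : a * (1 - x) + b * (1 - y) = 1 - (a * x + b * y) := by
    have : a = 1 - b := by linarith
    rw [this]; ring
  rw [e] at h2
  rw [relEnt_eq hp0 hp1, relEnt_eq hp0 hp1, relEnt_eq hp0 hp1]
  have e2 : a * ((1 - x) * Real.log (1 - p)) + b * ((1 - y) * Real.log (1 - p))
      = (1 - (a * x + b * y)) * Real.log (1 - p) := by
    rw [← e]; ring
  nlinarith [h1, h2, e2]

end CVX50

open CVX50 in
/-- Row CVX. -/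
theorem t_cvx : CVXStmt := by
  intro p q s hp0 hp1 hq0 hq1 hs0 hs1
  rw [three (s := s) hp0 hp1 hq0 hq1]
  have := pinsker hq0 hq1 hs0 hs1
  linarith

/-- Row GIN. -/
theorem t_gin (h1 : CVXStmt) : GINStmt := by
  intro V _ H he p q s hq0 hqp hp1 hs0 hs1
  have hp0 : 0 < p := hq0.trans_le hqp
  have hq1 : q < 1 := hqp.trans_lt hp1
  have hcvx := h1 p q s hp0 hp1 hq0 hq1 hs0 hs1
  have hL : 0 ≤ Ld p q := by
    unfold Ld
    refine Real.log_nonneg ?_
    rw [one_le_div (mul_pos hq0 (by linarith))]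
    nlinarith
  set e := numEdges H with hedef
  have hqe : 0 < (e : ℝ) * q ^ (e - 1) := mul_pos (by exact_mod_cast he) (pow_pos hq0 _)
  -- degrees
  have hdeg : ∀ v, dg H v ≤ e := by
    intro v
    classical
    unfold dg
    rw [← SimpleGraph.card_incidenceFinset_eq_degree, hedef]
    unfold numEdges
    refine Finset.card_le_card ?_
    intro a ha
    rw [SimpleGraph.mem_incidenceFinset] at ha
    rw [SimpleGraph.mem_edgeFinset]
    exact ha.1
  have hsum : ∑ v : V, (dg H v : ℝ) = 2 * e := by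
    classical
    have := H.sum_degrees_eq_twice_card_edges
    unfold dg
    rw [hedef]
    unfold numEdges
    exact_mod_cast this
  -- Bernoulli
  have hber : ∀ v, (dg H v : ℝ) * q ^ (e - 1) * (s - q)
      ≤ q ^ (e - dg H v) * (s ^ dg H v - q ^ dg H v) := by
    intro v
    have hd := hdeg v
    generalize dg H v = d at hd
    rcases Nat.eq_zero_or_pos d with rfl | hdpos
    · simp
    · have hb : (d : ℝ) * q ^ (d - 1) * (s - q) ≤ s ^ d - q ^ d := by
        have hb1 := one_add_mul_le_pow (a := s / q - 1) (by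
          have : 0 ≤ s / q := div_nonneg hs0 hq0.le
          linarith) d
        have hqd : 0 < q ^ d := pow_pos hq0 d
        have hb2 := mul_le_mul_of_nonneg_left hb1 hqd.le
        have e1 : q ^ d * (1 + (s / q - 1)) ^ d = s ^ d := by
          rw [← mul_pow]
          congr 1
          field_simp
          ring
        have e2 : q ^ d * (1 + (d : ℝ) * (s / q - 1))
            = q ^ d + (d : ℝ) * q ^ (d - 1) * (s - q) := by
          have : q ^ d = q ^ (d - 1) * q := by
            rw [← pow_succ]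
            congr 1
            omega
          rw [this]
          field_simp
        rw [e1, e2] at hb2
        linarith
      have hqq : 0 ≤ q ^ (e - d) := (pow_pos hq0 _).le
      have e3 : q ^ (e - d) * q ^ (d - 1) = q ^ (e - 1) := by
        rw [← pow_add]
        congr 1
        omega
      calc (d : ℝ) * q ^ (e - 1) * (s - q)
          = q ^ (e - d) * ((d : ℝ) * q ^ (d - 1) * (s - q)) := by rw [← e3]; ring
        _ ≤ q ^ (e - d) * (s ^ d - q ^ d) := mul_le_mul_of_nonneg_left hb hqq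
  have hS : 2 * (e : ℝ) * q ^ (e - 1) * (s - q)
      ≤ ∑ v : V, q ^ (e - dg H v) * (s ^ dg H v - q ^ dg H v) := by
    calc 2 * (e : ℝ) * q ^ (e - 1) * (s - q)
        = ∑ v : V, (dg H v : ℝ) * q ^ (e - 1) * (s - q) := by
          rw [← hsum, Finset.sum_mul, Finset.sum_mul]
      _ ≤ _ := Finset.sum_le_sum fun v _ => hber v
  have hfin : 2 * Ld p q * (s - q) ≤ Ld p q / (e * q ^ (e - 1)) *
      ∑ v : V, q ^ (e - dg H v) * (s ^ dg H v - q ^ dg H v) := by
    calc 2 * Ld p q * (s - q) = Ld p q / (e * q ^ (e - 1)) *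
          (2 * (e : ℝ) * q ^ (e - 1) * (s - q)) := by
          field_simp
      _ ≤ _ := mul_le_mul_of_nonneg_left hS (div_nonneg hL hqe.le)
  linarith

end Pool.FOT
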