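import Pool.Agent.H22.FOT.Defs

/-! Board `fot`, row HIL: weak regularity by energy decrement. -/

open MeasureTheory unitInterval Set Filter Topology

namespace Pool.FOT

namespace HIL50

variable {X : Type} [MeasurableSpace X]

lemma integrable_bdd (μ : Measure X) [IsFiniteMeasure μ] {g : X → ℝ} (hg : Measurable g) (C : ℝ)
    (hC : ∀ x, |g x| ≤ C) : Integrable g μ :=
  Integrable.of_bound hg.aestronglyMeasurable C (Eventually.of_forall fun x => by
    rw [Real.norm_eq_abs]; exact hC x)

/-- One step of the energy decrement. -/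
lemma step (μ : Measure X) [IsProbabilityMeasure μ] {g h : X → ℝ} (hg : Measurable g)
    (hh : Measurable h) {C : ℝ} (hC : ∀ x, |g x| ≤ C) (h01 : ∀ x, h x ∈ Icc (0 : ℝ) 1) {c : ℝ}
    (hc : ∫ x, g x * h x ∂μ = c) :
    c ^ 2 ≤ ∫ x, g x ^ 2 ∂μ ∧ ∫ x, (g x - c * h x) ^ 2 ∂μ ≤ ∫ x, g x ^ 2 ∂μ - c ^ 2 := by
  have hC0 : ∀ x, 0 ≤ C := fun x => (abs_nonneg _).trans (hC x)
  have i1 : Integrable (fun x => g x ^ 2) μ := by
    refine integrable_bdd μ (hg.pow_const 2) (C ^ 2) fun x => ?_
    rw [abs_pow]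
    exact pow_le_pow_left₀ (abs_nonneg _) (hC x) 2
  have i2 : Integrable (fun x => g x * h x) μ := by
    refine integrable_bdd μ (hg.mul hh) C fun x => ?_
    rw [abs_mul, abs_of_nonneg (h01 x).1]
    calc |g x| * h x ≤ C * 1 := mul_le_mul (hC x) (h01 x).2 (h01 x).1 (hC0 x)
      _ = C := mul_one C
  have i3 : Integrable (fun x => h x ^ 2) μ := by
    refine integrable_bdd μ (hh.pow_const 2) 1 fun x => ?_
    rw [abs_of_nonneg (sq_nonneg _)]
    exact pow_le_one₀ (h01 x).1 (h01 x).2
  have i4 : Integrable (fun x => g x ^ 2 * h x ^ 2) μ := by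
    refine integrable_bdd μ ((hg.pow_const 2).mul (hh.pow_const 2)) (C ^ 2) fun x => ?_
    rw [abs_of_nonneg (mul_nonneg (sq_nonneg _) (sq_nonneg _))]
    have h1 : g x ^ 2 ≤ C ^ 2 := by
      rw [← sq_abs (g x)]
      exact pow_le_pow_left₀ (abs_nonneg _) (hC x) 2
    have h2 : h x ^ 2 ≤ 1 := pow_le_one₀ (h01 x).1 (h01 x).2
    calc g x ^ 2 * h x ^ 2 ≤ C ^ 2 * 1 := mul_le_mul h1 h2 (sq_nonneg _) (sq_nonneg _)
      _ = C ^ 2 := mul_one _
  have h3 : ∫ x, h x ^ 2 ∂μ ≤ 1 := by
    calc ∫ x, h x ^ 2 ∂μ ≤ ∫ _, (1 : ℝ) ∂μ :=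
          integral_mono i3 (integrable_const _) fun x => pow_le_one₀ (h01 x).1 (h01 x).2
      _ = 1 := by simp
  constructor
  · have h1 : 0 ≤ ∫ x, (g x * h x - c) ^ 2 ∂μ := integral_nonneg fun x => sq_nonneg _
    have h2 : ∫ x, (g x * h x - c) ^ 2 ∂μ
        = ∫ x, g x ^ 2 * h x ^ 2 ∂μ - 2 * c * ∫ x, g x * h x ∂μ + c ^ 2 := by
      have e1 : (fun x => (g x * h x - c) ^ 2)
          = fun x => g x ^ 2 * h x ^ 2 - 2 * c * (g x * h x) + c ^ 2 := by
        funext x; ring
      have i5 : Integrable (fun x => g x ^ 2 * h x ^ 2 - 2 * c * (g x * h x)) μ :=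
        i4.sub (i2.const_mul _)
      rw [e1, integral_add i5 (integrable_const _), integral_sub i4 (i2.const_mul _),
        integral_const_mul]
      simp
    have h4 : ∫ x, g x ^ 2 * h x ^ 2 ∂μ ≤ ∫ x, g x ^ 2 ∂μ := by
      refine integral_mono i4 i1 fun x => ?_
      have h2 : h x ^ 2 ≤ 1 := pow_le_one₀ (h01 x).1 (h01 x).2
      calc g x ^ 2 * h x ^ 2 ≤ g x ^ 2 * 1 := mul_le_mul_of_nonneg_left h2 (sq_nonneg _)
        _ = g x ^ 2 := mul_one _
    rw [h2, hc] at h1
    nlinarith [h1, h4]
  · have e1 : (fun x => (g x - c * h x) ^ 2)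
        = fun x => g x ^ 2 - 2 * c * (g x * h x) + c ^ 2 * h x ^ 2 := by
      funext x; ring
    have i5 : Integrable (fun x => g x ^ 2 - 2 * c * (g x * h x)) μ :=
      i1.sub (i2.const_mul _)
    rw [e1, integral_add i5 (i3.const_mul _), integral_sub i1 (i2.const_mul _),
      integral_const_mul, integral_const_mul, hc]
    nlinarith [h3, sq_nonneg c]

end HIL50

open HIL50 in
/-- Row HIL. -/
theorem t_hil : HILStmt := by
  intro Ω _ μ _ f hf hf1 k hk
  have hk0 : (0 : ℝ) < k := by exact_mod_cast hk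
  -- the remainders
  let F : (ℕ → Ω → ℝ) → (ℕ → Ω → ℝ) → (ℕ → ℝ) → ℕ → Ω × Ω → ℝ := fun a b c j z =>
    f z.1 z.2 - ∑ i ∈ Finset.range j, c i * a i z.1 * b i z.2
  have hFm : ∀ a b c j, (∀ i, Measurable (a i)) → (∀ i, Measurable (b i)) →
      Measurable (F a b c j) := by
    intro a b c j ha hb
    refine hf.sub (Finset.measurable_sum _ fun i _ => ?_)
    exact ((measurable_const.mul ((ha i).comp measurable_fst)).mul ((hb i).comp measurable_snd))
  have hFb : ∀ (a b : ℕ → Ω → ℝ) (c : ℕ → ℝ) (j : ℕ), (∀ i x, a i x ∈ Icc (0 : ℝ) 1) →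
      (∀ i x, b i x ∈ Icc (0 : ℝ) 1) → (∀ i, c i ∈ Icc (-1 : ℝ) 1) →
      ∀ z, |F a b c j z| ≤ 1 + j := by
    intro a b c j ha hb hc z
    refine (abs_sub _ _).trans (add_le_add (hf1 _ _) ?_)
    refine (Finset.abs_sum_le_sum_abs _ _).trans ?_
    have h1 : ∀ i ∈ Finset.range j, |c i * a i z.1 * b i z.2| ≤ 1 := by
      intro i _
      rw [abs_mul, abs_mul, abs_of_nonneg (ha i z.1).1, abs_of_nonneg (hb i z.2).1]
      have h2 : |c i| ≤ 1 := abs_le.2 ⟨(hc i).1, (hc i).2⟩
      calc |c i| * a i z.1 * b i z.2 ≤ 1 * 1 * 1 := by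
            refine mul_le_mul (mul_le_mul h2 (ha i z.1).2 (ha i z.1).1 zero_le_one)
              (hb i z.2).2 (hb i z.2).1 (by norm_num)
        _ = 1 := by norm_num
    calc ∑ i ∈ Finset.range j, |c i * a i z.1 * b i z.2| ≤ ∑ _i ∈ Finset.range j, (1 : ℝ) :=
          Finset.sum_le_sum h1
      _ = j := by simp
  have key : ∀ j : ℕ, ∃ (a b : ℕ → Ω → ℝ) (c : ℕ → ℝ), (∀ i, Measurable (a i)) ∧
      (∀ i, Measurable (b i)) ∧ (∀ i x, a i x ∈ Icc (0 : ℝ) 1) ∧
      (∀ i x, b i x ∈ Icc (0 : ℝ) 1) ∧ (∀ i, c i ∈ Icc (-1 : ℝ) 1) ∧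
      (CutLe μ (fun x y => F a b c j (x, y)) (1 / k) ∨
        ∫ z, F a b c j z ^ 2 ∂(μ.prod μ) ≤ 1 - j / (k : ℝ) ^ 2) := by
    intro j
    induction j with
    | zero =>
      refine ⟨fun _ _ => 0, fun _ _ => 0, fun _ => 0, fun _ => measurable_const,
        fun _ => measurable_const, fun _ _ => ⟨le_rfl, zero_le_one⟩,
        fun _ _ => ⟨le_rfl, zero_le_one⟩, fun _ => ⟨by norm_num, by norm_num⟩, Or.inr ?_⟩
      have h1 : ∀ z : Ω × Ω, F (fun _ _ => 0) (fun _ _ => 0) (fun _ => 0) 0 z ^ 2 ≤ 1 := by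
        intro z
        simp only [F, Finset.range_zero, Finset.sum_empty, sub_zero]
        rw [← sq_abs]
        exact pow_le_one₀ (abs_nonneg _) (hf1 _ _)
      have hm : Measurable (F (fun _ _ => 0) (fun _ _ => 0) (fun _ => 0) 0) :=
        hFm _ _ _ _ (fun _ => measurable_const) fun _ => measurable_const
      have h2 : Integrable (fun z => F (fun _ _ => 0) (fun _ _ => 0) (fun _ => 0) 0 z ^ 2)
          (μ.prod μ) := by
        refine integrable_bdd _ (hm.pow_const 2) 1 fun z => ?_
        rw [abs_of_nonneg (sq_nonneg _)]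
        exact h1 z
      calc ∫ z, F (fun _ _ => 0) (fun _ _ => 0) (fun _ => 0) 0 z ^ 2 ∂(μ.prod μ)
          ≤ ∫ _, (1 : ℝ) ∂(μ.prod μ) := integral_mono h2 (integrable_const _) h1
        _ = 1 - ((0 : ℕ) : ℝ) / (k : ℝ) ^ 2 := by simp
    | succ j ih =>
      obtain ⟨a, b, c, ha, hb, ha1, hb1, hc1, hor⟩ := ih
      by_cases hcut : CutLe μ (fun x y => F a b c j (x, y)) (1 / k)
      · -- pad with zero
        refine ⟨a, b, fun i => if i < j then c i else 0, ha, hb, ha1, hb1, ?_, Or.inl ?_⟩
        · intro i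
          by_cases hi : i < j
          · simp only [hi, if_true]; exact hc1 i
          · simp only [hi, if_false]; exact ⟨by norm_num, by norm_num⟩
        · have e : (fun x y => F a b (fun i => if i < j then c i else 0) (j + 1) (x, y))
              = fun x y => F a b c j (x, y) := by
            funext x y
            simp only [F, Finset.sum_range_succ]
            rw [if_neg (lt_irrefl j), zero_mul, zero_mul, add_zero]
            congr 1
            refine Finset.sum_congr rfl fun i hi => ?_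
            rw [if_pos (Finset.mem_range.1 hi)]
          rw [e]
          exact hcut
      · have hen : ∫ z, F a b c j z ^ 2 ∂(μ.prod μ) ≤ 1 - j / (k : ℝ) ^ 2 := by
          rcases hor with h | h
          · exact absurd h hcut
          · exact h
        unfold CutLe at hcut
        push Not at hcut
        obtain ⟨a0, b0, ha0, hb0, ha01, hb01, hlt⟩ := hcut
        set c0 : ℝ := ∫ z : Ω × Ω, F a b c j z * (a0 z.1 * b0 z.2) ∂(μ.prod μ) with hc0
        have hlt' : 1 / (k : ℝ) < |c0| := by
          refine lt_of_lt_of_eq hlt ?_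
          rw [hc0]
          congr 1
          refine integral_congr_ae (Eventually.of_forall fun z => ?_)
          simp only [Prod.mk.eta]
          ring
        have hh01 : ∀ z : Ω × Ω, a0 z.1 * b0 z.2 ∈ Icc (0 : ℝ) 1 := fun z =>
          ⟨mul_nonneg (ha01 _).1 (hb01 _).1,
            mul_le_one₀ (ha01 _).2 (hb01 _).1 (hb01 _).2⟩
        have hst := step (μ.prod μ) (g := F a b c j) (h := fun z => a0 z.1 * b0 z.2)
          (hFm a b c j ha hb) ((ha0.comp measurable_fst).mul (hb0.comp measurable_snd))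
          (hFb a b c j ha1 hb1 hc1) hh01 (c := c0) hc0.symm
        obtain ⟨hs1, hs2⟩ := hst
        have hc0sq : 1 / (k : ℝ) ^ 2 < c0 ^ 2 := by
          rw [← sq_abs c0, ← one_div_pow]
          exact pow_lt_pow_left₀ hlt' (by positivity) (by norm_num)
        have hc0le : c0 ^ 2 ≤ 1 := by
          refine hs1.trans (hen.trans ?_)
          have : (0 : ℝ) ≤ j / (k : ℝ) ^ 2 := by positivity
          linarith
        have hc0abs : |c0| ≤ 1 := by
          rw [← sq_le_one_iff_abs_le_one]
          exact hc0le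
        refine ⟨fun i => if i < j then a i else a0, fun i => if i < j then b i else b0,
          fun i => if i < j then c i else c0, ?_, ?_, ?_, ?_, ?_, Or.inr ?_⟩
        · intro i
          by_cases hi : i < j
          · simp only [hi, if_true]; exact ha i
          · simp only [hi, if_false]; exact ha0
        · intro i
          by_cases hi : i < j
          · simp only [hi, if_true]; exact hb i
          · simp only [hi, if_false]; exact hb0
        · intro i x
          by_cases hi : i < j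
          · simp only [hi, if_true]; exact ha1 i x
          · simp only [hi, if_false]; exact ha01 x
        · intro i x
          by_cases hi : i < j
          · simp only [hi, if_true]; exact hb1 i x
          · simp only [hi, if_false]; exact hb01 x
        · intro i
          by_cases hi : i < j
          · simp only [hi, if_true]; exact hc1 i
          · simp only [hi, if_false]
            exact ⟨(abs_le.1 hc0abs).1, (abs_le.1 hc0abs).2⟩
        · have e : ∀ z : Ω × Ω, F (fun i => if i < j then a i else a0)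
              (fun i => if i < j then b i else b0) (fun i => if i < j then c i else c0) (j + 1) z
              = F a b c j z - c0 * (a0 z.1 * b0 z.2) := by
            intro z
            simp only [F, Finset.sum_range_succ]
            rw [if_neg (lt_irrefl j), if_neg (lt_irrefl j), if_neg (lt_irrefl j)]
            have : ∑ i ∈ Finset.range j, (if i < j then c i else c0) *
                (if i < j then a i else a0) z.1 * (if i < j then b i else b0) z.2
                = ∑ i ∈ Finset.range j, c i * a i z.1 * b i z.2 := by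
              refine Finset.sum_congr rfl fun i hi => ?_
              rw [if_pos (Finset.mem_range.1 hi), if_pos (Finset.mem_range.1 hi),
                if_pos (Finset.mem_range.1 hi)]
            rw [this]
            ring
          have e2 : ∫ z, F (fun i => if i < j then a i else a0)
              (fun i => if i < j then b i else b0) (fun i => if i < j then c i else c0) (j + 1) z
                ^ 2 ∂(μ.prod μ) = ∫ z, (F a b c j z - c0 * (a0 z.1 * b0 z.2)) ^ 2 ∂(μ.prod μ) :=
            integral_congr_ae (Eventually.of_forall fun z => by simp only [e z])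
          rw [e2]
          push_cast
          have e3 : ((j : ℝ) + 1) / (k : ℝ) ^ 2 = j / (k : ℝ) ^ 2 + 1 / (k : ℝ) ^ 2 := by ring
          rw [e3]
          linarith
  obtain ⟨a, b, c, ha, hb, ha1, hb1, hc1, hor⟩ := key (k ^ 2)
  refine ⟨a, b, c, ha, hb, ha1, hb1, hc1, ?_⟩
  rcases hor with h | h
  · exact h
  · have h0 : ∫ z, F a b c (k ^ 2) z ^ 2 ∂(μ.prod μ) ≤ 0 := by
      refine h.trans ?_
      push_cast
      rw [div_self (by positivity)]
      norm_num
    intro a0 b0 ha0 hb0 ha01 hb01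
    have hh01 : ∀ z : Ω × Ω, a0 z.1 * b0 z.2 ∈ Icc (0 : ℝ) 1 := fun z =>
      ⟨mul_nonneg (ha01 _).1 (hb01 _).1, mul_le_one₀ (ha01 _).2 (hb01 _).1 (hb01 _).2⟩
    have hst := (step (μ.prod μ) (g := F a b c (k ^ 2)) (h := fun z => a0 z.1 * b0 z.2)
      (hFm a b c _ ha hb) ((ha0.comp measurable_fst).mul (hb0.comp measurable_snd))
      (hFb a b c _ ha1 hb1 hc1) hh01 rfl).1
    have h1 : ∫ z : Ω × Ω, F a b c (k ^ 2) z * (a0 z.1 * b0 z.2) ∂(μ.prod μ) = 0 := by
      have := le_antisymm (hst.trans h0) (sq_nonneg _)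
      exact pow_eq_zero_iff (two_ne_zero) |>.1 this
    have h2 : ∫ z : Ω × Ω, (f z.1 z.2 - ∑ i ∈ Finset.range (k ^ 2), c i * a i z.1 * b i z.2)
        * a0 z.1 * b0 z.2 ∂(μ.prod μ)
        = ∫ z : Ω × Ω, F a b c (k ^ 2) z * (a0 z.1 * b0 z.2) ∂(μ.prod μ) :=
      integral_congr_ae (Eventually.of_forall fun z => by simp only [F]; ring)
    rw [h2, h1, abs_zero]
    positivity

end Pool.FOT
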