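import Pool.Agent.H22.FOT.Defs

/-! Board `fot`, row STW: Stone-Weierstrass on `KK × KK`. -/

open MeasureTheory unitInterval Set Filter Topology

namespace Pool.FOT

namespace STW50

lemma integrable_bdd {X : Type} [MeasurableSpace X] (μ : Measure X) [IsFiniteMeasure μ]
    {g : X → ℝ} (hg : Measurable g) (C : ℝ) (hC : ∀ x, |g x| ≤ C) : Integrable g μ :=
  Integrable.of_bound hg.aestronglyMeasurable C (Eventually.of_forall fun x => by
    rw [Real.norm_eq_abs]; exact hC x)

/-- Products `g(x) h(y)`. -/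
def pr (g h : C(KK, ℝ)) : C(KK × KK, ℝ) :=
  (g.comp ⟨Prod.fst, continuous_fst⟩) * (h.comp ⟨Prod.snd, continuous_snd⟩)

lemma pr_apply (g h : C(KK, ℝ)) (z : KK × KK) : pr g h z = g z.1 * h z.2 := rfl

/-- The submonoid of products. -/
def prM : Submonoid C(KK × KK, ℝ) where
  carrier := {F | ∃ g h, F = pr g h}
  one_mem' := ⟨1, 1, by ext z; simp [pr_apply]⟩
  mul_mem' := by
    rintro F G ⟨g, h, rfl⟩ ⟨g', h', rfl⟩
    refine ⟨g * g', h * h', ?_⟩
    ext z
    simp only [ContinuousMap.mul_apply, pr_apply]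
    ring

/-- Sums of products are dense. -/
lemma dense_pr (F : C(KK × KK, ℝ)) (ε : ℝ) (hε : 0 < ε) :
    ∃ G ∈ Submodule.span ℝ (prM : Set C(KK × KK, ℝ)), ∀ z, |F z - G z| < ε := by
  have hsep : (Algebra.adjoin ℝ (prM : Set C(KK × KK, ℝ))).SeparatesPoints := by
    intro z z' hne
    have hor : z.1 ≠ z'.1 ∨ z.2 ≠ z'.2 := by
      by_contra hcon
      push Not at hcon
      exact hne (Prod.ext hcon.1 hcon.2)
    rcases hor with h | h
    · obtain ⟨i, hi⟩ := Function.ne_iff.1 h
      let g : C(KK, ℝ) := ⟨fun x => (x i : ℝ), by fun_prop⟩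
      refine ⟨fun z => pr g 1 z, ⟨pr g 1, Algebra.subset_adjoin ⟨g, 1, rfl⟩, rfl⟩, ?_⟩
      simp only [pr_apply, ContinuousMap.one_apply, mul_one]
      exact fun h' => hi (Subtype.ext h')
    · obtain ⟨i, hi⟩ := Function.ne_iff.1 h
      let g : C(KK, ℝ) := ⟨fun x => (x i : ℝ), by fun_prop⟩
      refine ⟨fun z => pr 1 g z, ⟨pr 1 g, Algebra.subset_adjoin ⟨1, g, rfl⟩, rfl⟩, ?_⟩
      simp only [pr_apply, ContinuousMap.one_apply, one_mul]
      exact fun h' => hi (Subtype.ext h')
  have htop := ContinuousMap.subalgebra_topologicalClosure_eq_top_of_separatesPoints _ hsep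
  have hF : F ∈ (Algebra.adjoin ℝ (prM : Set C(KK × KK, ℝ))).topologicalClosure := by
    rw [htop]; trivial
  rw [← SetLike.mem_coe, Subalgebra.topologicalClosure_coe, Metric.mem_closure_iff] at hF
  obtain ⟨G, hG, hd⟩ := hF ε hε
  refine ⟨G, ?_, fun z => ?_⟩
  · have h1 := Algebra.adjoin_eq_span (R := ℝ) (s := (prM : Set C(KK × KK, ℝ)))
    rw [Submonoid.closure_eq] at h1
    rw [← h1]
    exact hG
  · refine lt_of_le_of_lt ?_ hd
    have := ContinuousMap.dist_apply_le_dist (f := F) (g := G) z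
    rwa [Real.dist_eq] at this

end STW50

open STW50 in
/-- Row STW. -/
theorem t_stw : STWStmt := by
  intro Φ hΦ ν hν a b α β ha hb hα hβ ha1 hb1 hα1 hβ1 hla hlb
  -- notation
  let Φ2 : ℕ → I × I → KK × KK := fun n z => (Φ n z.1, Φ n z.2)
  have hΦ2 : ∀ n, Measurable (Φ2 n) := fun n =>
    ((hΦ n).comp measurable_fst).prodMk ((hΦ n).comp measurable_snd)
  have hbd : ∀ F : C(KK × KK, ℝ), ∃ C, 0 ≤ C ∧ ∀ z, |F z| ≤ C := fun F =>
    ⟨‖F‖, norm_nonneg _, fun z => F.norm_coe_le_norm z⟩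
  have hi1 : ∀ (F : C(KK × KK, ℝ)) (n : ℕ),
      Integrable (fun z : I × I => F (Φ n z.1, Φ n z.2) * a n z.1 * b n z.2) := by
    intro F n
    obtain ⟨C, hC0, hC⟩ := hbd F
    refine integrable_bdd _ ((((F.continuous.measurable).comp (hΦ2 n)).mul
      ((ha n).comp measurable_fst)).mul ((hb n).comp measurable_snd)) C fun z => ?_
    rw [abs_mul, abs_mul, abs_of_nonneg (ha1 n z.1).1, abs_of_nonneg (hb1 n z.2).1]
    calc |F (Φ n z.1, Φ n z.2)| * a n z.1 * b n z.2 ≤ C * 1 * 1 :=
          mul_le_mul (mul_le_mul (hC _) (ha1 n z.1).2 (ha1 n z.1).1 hC0) (hb1 n z.2).2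
            (hb1 n z.2).1 (by positivity)
      _ = C := by ring
  have hi2 : ∀ F : C(KK × KK, ℝ),
      Integrable (fun z : KK × KK => F z * α z.1 * β z.2) (ν.prod ν) := by
    intro F
    obtain ⟨C, hC0, hC⟩ := hbd F
    refine integrable_bdd _ (((F.continuous.measurable).mul
      (hα.comp measurable_fst)).mul (hβ.comp measurable_snd)) C fun z => ?_
    rw [abs_mul, abs_mul, abs_of_nonneg (hα1 z.1).1, abs_of_nonneg (hβ1 z.2).1]
    calc |F z| * α z.1 * β z.2 ≤ C * 1 * 1 :=
          mul_le_mul (mul_le_mul (hC _) (hα1 z.1).2 (hα1 z.1).1 hC0) (hβ1 z.2).2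
            (hβ1 z.2).1 (by positivity)
      _ = C := by ring
  -- the property
  let P : C(KK × KK, ℝ) → Prop := fun F => Tendsto
      (fun n => ∫ z : I × I, F (Φ n z.1, Φ n z.2) * a n z.1 * b n z.2)
      (hyperfilter ℕ : Filter ℕ) (𝓝 (∫ z : KK × KK, F z * α z.1 * β z.2 ∂(ν.prod ν)))
  have hspan : ∀ G ∈ Submodule.span ℝ (prM : Set C(KK × KK, ℝ)), P G := by
    intro G hG
    induction hG using Submodule.span_induction with
    | mem F hF =>
      obtain ⟨g, h, rfl⟩ := hF
      have h1 := (hla g).mul (hlb h)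
      have e1 : ∀ n, ∫ z : I × I, pr g h (Φ n z.1, Φ n z.2) * a n z.1 * b n z.2
          = (∫ x : I, g (Φ n x) * a n x) * ∫ x : I, h (Φ n x) * b n x := by
        intro n
        have := integral_prod_mul (μ := (volume : Measure I)) (ν := (volume : Measure I))
          (fun x => g (Φ n x) * a n x) (fun x => h (Φ n x) * b n x)
        rw [← this]
        refine integral_congr_ae (Eventually.of_forall fun z => ?_)
        simp only [pr_apply]
        ring
      have e2 : ∫ z : KK × KK, pr g h z * α z.1 * β z.2 ∂(ν.prod ν)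
          = (∫ x, g x * α x ∂ν) * ∫ x, h x * β x ∂ν := by
        have := integral_prod_mul (μ := ν) (ν := ν) (fun x => g x * α x) (fun x => h x * β x)
        rw [← this]
        refine integral_congr_ae (Eventually.of_forall fun z => ?_)
        simp only [pr_apply]
        ring
      show Tendsto (fun n => ∫ z : I × I, pr g h (Φ n z.1, Φ n z.2) * a n z.1 * b n z.2)
        (hyperfilter ℕ : Filter ℕ) (𝓝 (∫ z : KK × KK, pr g h z * α z.1 * β z.2 ∂(ν.prod ν)))
      simp only [e1, e2]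
      exact h1
    | zero =>
      show Tendsto (fun n => ∫ z : I × I, (0 : C(KK × KK, ℝ)) (Φ n z.1, Φ n z.2) * a n z.1 *
        b n z.2) (hyperfilter ℕ : Filter ℕ)
        (𝓝 (∫ z : KK × KK, (0 : C(KK × KK, ℝ)) z * α z.1 * β z.2 ∂(ν.prod ν)))
      simp
    | add F G _ _ hF hG =>
      have h1 := hF.add hG
      have e1 : ∀ n, ∫ z : I × I, (F + G) (Φ n z.1, Φ n z.2) * a n z.1 * b n z.2
          = (∫ z : I × I, F (Φ n z.1, Φ n z.2) * a n z.1 * b n z.2)
            + ∫ z : I × I, G (Φ n z.1, Φ n z.2) * a n z.1 * b n z.2 := by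
        intro n
        rw [← integral_add (hi1 F n) (hi1 G n)]
        refine integral_congr_ae (Eventually.of_forall fun z => ?_)
        simp only [ContinuousMap.add_apply]
        ring
      have e2 : ∫ z : KK × KK, (F + G) z * α z.1 * β z.2 ∂(ν.prod ν)
          = (∫ z : KK × KK, F z * α z.1 * β z.2 ∂(ν.prod ν))
            + ∫ z : KK × KK, G z * α z.1 * β z.2 ∂(ν.prod ν) := by
        rw [← integral_add (hi2 F) (hi2 G)]
        refine integral_congr_ae (Eventually.of_forall fun z => ?_)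
        simp only [ContinuousMap.add_apply]
        ring
      show Tendsto (fun n => ∫ z : I × I, (F + G) (Φ n z.1, Φ n z.2) * a n z.1 * b n z.2)
        (hyperfilter ℕ : Filter ℕ) (𝓝 (∫ z : KK × KK, (F + G) z * α z.1 * β z.2 ∂(ν.prod ν)))
      simp only [e1, e2]
      exact h1
    | smul r F _ hF =>
      have h1 := hF.const_mul r
      have e1 : ∀ n, ∫ z : I × I, (r • F) (Φ n z.1, Φ n z.2) * a n z.1 * b n z.2
          = r * ∫ z : I × I, F (Φ n z.1, Φ n z.2) * a n z.1 * b n z.2 := by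
        intro n
        rw [← integral_const_mul]
        refine integral_congr_ae (Eventually.of_forall fun z => ?_)
        simp only [ContinuousMap.smul_apply, smul_eq_mul]
        ring
      have e2 : ∫ z : KK × KK, (r • F) z * α z.1 * β z.2 ∂(ν.prod ν)
          = r * ∫ z : KK × KK, F z * α z.1 * β z.2 ∂(ν.prod ν) := by
        rw [← integral_const_mul]
        refine integral_congr_ae (Eventually.of_forall fun z => ?_)
        simp only [ContinuousMap.smul_apply, smul_eq_mul]
        ring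
      show Tendsto (fun n => ∫ z : I × I, (r • F) (Φ n z.1, Φ n z.2) * a n z.1 * b n z.2)
        (hyperfilter ℕ : Filter ℕ) (𝓝 (∫ z : KK × KK, (r • F) z * α z.1 * β z.2 ∂(ν.prod ν)))
      simp only [e1, e2]
      exact h1
  intro F
  rw [Metric.tendsto_nhds]
  intro ε hε
  obtain ⟨G, hG, hd⟩ := dense_pr F (ε / 4) (by positivity)
  have hPG := hspan G hG
  have hev := (Metric.tendsto_nhds.1 hPG) (ε / 4) (by positivity)
  -- closeness
  have c1 : ∀ n, |(∫ z : I × I, F (Φ n z.1, Φ n z.2) * a n z.1 * b n z.2)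
      - ∫ z : I × I, G (Φ n z.1, Φ n z.2) * a n z.1 * b n z.2| ≤ ε / 4 := by
    intro n
    rw [← integral_sub (hi1 F n) (hi1 G n)]
    have h2 : ‖∫ z : I × I, (F (Φ n z.1, Φ n z.2) * a n z.1 * b n z.2
        - G (Φ n z.1, Φ n z.2) * a n z.1 * b n z.2)‖ ≤ (ε / 4) * (volume : Measure (I × I)).real
          univ := by
      refine norm_integral_le_of_norm_le_const (Eventually.of_forall fun z => ?_)
      rw [Real.norm_eq_abs]
      have e : F (Φ n z.1, Φ n z.2) * a n z.1 * b n z.2
          - G (Φ n z.1, Φ n z.2) * a n z.1 * b n z.2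
          = (F (Φ n z.1, Φ n z.2) - G (Φ n z.1, Φ n z.2)) * a n z.1 * b n z.2 := by ring
      rw [e, abs_mul, abs_mul, abs_of_nonneg (ha1 n z.1).1, abs_of_nonneg (hb1 n z.2).1]
      calc |F (Φ n z.1, Φ n z.2) - G (Φ n z.1, Φ n z.2)| * a n z.1 * b n z.2
          ≤ (ε / 4) * 1 * 1 :=
            mul_le_mul (mul_le_mul (hd _).le (ha1 n z.1).2 (ha1 n z.1).1 (by positivity))
              (hb1 n z.2).2 (hb1 n z.2).1 (by positivity)
        _ = ε / 4 := by ring
    have h3 : (volume : Measure (I × I)).real univ = 1 := by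
      simp [measureReal_def]
    rw [h3, mul_one, Real.norm_eq_abs] at h2
    exact h2
  have c2 : |(∫ z : KK × KK, F z * α z.1 * β z.2 ∂(ν.prod ν))
      - ∫ z : KK × KK, G z * α z.1 * β z.2 ∂(ν.prod ν)| ≤ ε / 4 := by
    rw [← integral_sub (hi2 F) (hi2 G)]
    have h2 : ‖∫ z : KK × KK, (F z * α z.1 * β z.2 - G z * α z.1 * β z.2) ∂(ν.prod ν)‖
        ≤ (ε / 4) * (ν.prod ν).real univ := by
      refine norm_integral_le_of_norm_le_const (Eventually.of_forall fun z => ?_)
      rw [Real.norm_eq_abs]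
      have e : F z * α z.1 * β z.2 - G z * α z.1 * β z.2
          = (F z - G z) * α z.1 * β z.2 := by ring
      rw [e, abs_mul, abs_mul, abs_of_nonneg (hα1 z.1).1, abs_of_nonneg (hβ1 z.2).1]
      calc |F z - G z| * α z.1 * β z.2
          ≤ (ε / 4) * 1 * 1 :=
            mul_le_mul (mul_le_mul (hd _).le (hα1 z.1).2 (hα1 z.1).1 (by positivity))
              (hβ1 z.2).2 (hβ1 z.2).1 (by positivity)
        _ = ε / 4 := by ring
    have h3 : (ν.prod ν).real univ = 1 := by simp [measureReal_def]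
    rw [h3, mul_one, Real.norm_eq_abs] at h2
    exact h2
  filter_upwards [hev] with n hn
  rw [Real.dist_eq] at hn ⊢
  have h4 := c1 n
  rw [abs_le] at h4 c2
  rw [abs_lt] at hn ⊢
  constructor <;> linarith [h4.1, h4.2, c2.1, c2.2, hn.1, hn.2]

end Pool.FOT
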